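import Pool.Agent.H367R3.GSForest

set_option autoImplicit false

namespace Pool.Agent.N471.EL

open Set Pool.Agent.H367R3

variable {V : Type*} {G : SimpleGraph V}

theorem Col.mono' {A B : Set V} {c d : ℕ} (h : Col G A c) (hB : B ⊆ A) (hc : c ≤ d) : Col G B d := by
  obtain ⟨f, h1, h2⟩ := h
  exact ⟨f, fun x hx => (h1 x (hB hx)).trans_le hc, fun x hx y hy => h2 x (hB hx) y (hB hy)⟩

theorem Col.union {A B : Set V} {a b : ℕ} (hA : Col G A a) (hB : Col G B b) :
    Col G (A ∪ B) (a + b) := by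
  classical
  obtain ⟨f, f1, f2⟩ := hA
  obtain ⟨g, g1, g2⟩ := hB
  refine ⟨fun x => if x ∈ A then f x else a + g x, ?_, ?_⟩
  · intro x hx
    by_cases hxA : x ∈ A
    · have := f1 x hxA
      simp only [hxA, if_true]
      omega
    · have := g1 x (hx.resolve_left hxA)
      simp only [hxA, if_false]
      omega
  · intro x hx y hy hadj
    by_cases hxA : x ∈ A <;> by_cases hyA : y ∈ A
    · simp only [hxA, hyA, if_true]
      exact f2 x hxA y hyA hadj
    · have := f1 x hxA
      simp only [hxA, hyA, if_true, if_false]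
      omega
    · have := f1 y hyA
      simp only [hxA, hyA, if_true, if_false]
      omega
    · have := g2 x (hx.resolve_left hxA) y (hy.resolve_left hyA) hadj
      simp only [hxA, hyA, if_false]
      omega

theorem Col.glueT {ι : Type*} [Fintype ι] {A : Set V} {c : ℕ} (g : V → ι)
    (h : ∀ j, Col G {x | x ∈ A ∧ g x = j} c) : Col G A (Fintype.card ι * c) := by
  classical
  refine Col.glue (fun x => (Fintype.equivFin ι (g x)).1) (fun x _ => (Fintype.equivFin ι (g x)).2) ?_
  intro j hj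
  refine Col.mono' (h ((Fintype.equivFin ι).symm ⟨j, hj⟩)) ?_ le_rfl
  rintro x ⟨hx, hxj⟩
  refine ⟨hx, ?_⟩
  rw [Equiv.eq_symm_apply]
  exact Fin.ext hxj

theorem Col.empty' {A : Set V} (hA : A = ∅) (c : ℕ) : Col G A c := by
  subst hA
  exact ⟨fun _ => 0, by simp, by simp⟩

theorem exists_idx {C : Type*} (U : Finset C) {n : ℕ} (hU : U.card ≤ n) (hn : 0 < n) :
    ∃ f : C → Fin n, ∀ a ∈ U, ∀ b ∈ U, f a = f b → a = b := by
  classical
  refine ⟨fun a => if h : a ∈ U then ⟨(U.equivFin ⟨a, h⟩).1,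
    (U.equivFin ⟨a, h⟩).2.trans_le hU⟩ else ⟨0, hn⟩, ?_⟩
  intro a ha b hb hab
  simp only [ha, hb, dif_pos] at hab
  have h1 := congrArg Fin.val hab
  simp only at h1
  have h2 := U.equivFin.injective (Fin.ext h1)
  exact congrArg Subtype.val h2

end Pool.Agent.N471.EL
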