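import Pool.Agent.N471.EL.Col

set_option autoImplicit false

namespace Pool.Agent.N471.EL

open Set Pool.Agent.H367R3

universe u v w u' v'

variable {V : Type u} {Ω : Type v} {C : Type w} {Θ : Type u'} {L : Type v'} [LinearOrder L]

/-- Labelled graphs.  `ty x y` consists of the pattern of the coincidences between the labels of
`x` and of `y`, and of an index of a threshold comparison which holds if `x` and `y` are adjacent. -/
structure Sys (G : SimpleGraph V) (lab : V → Ω → C) (ι : Ω)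
    (ty : V → V → Finset (Ω × Ω) × Θ) (a b : Finset (Ω × Ω) × Θ → V → L) : Prop where
  pat : ∀ x y p, p ∈ (ty x y).1 ↔ lab x p.1 = lab y p.2
  lt : ∀ x y, G.Adj x y → a (ty x y) x < b (ty x y) y
  adj : ∀ τ x y, x ≠ y → (ty x y).1 = τ.1 → a τ x < b τ y → G.Adj x y
  inj : ∀ x y, lab x ι = lab y ι → x = y

/-- Functional dependencies among the labels of the members of `W`. -/
def relS (lab : V → Ω → C) (W : Set V) : Set (Finset Ω × Ω) :=
  {p | ∀ x ∈ W, ∀ y ∈ W, (∀ d ∈ p.1, lab x d = lab y d) → lab x p.2 = lab y p.2}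

/-- Types which do not occur on the edges inside `W`. -/
def inactS (G : SimpleGraph V) (ty : V → V → Finset (Ω × Ω) × Θ) (W : Set V) :
    Set (Finset (Ω × Ω) × Θ) :=
  {τ | ∀ x ∈ W, ∀ y ∈ W, G.Adj x y → ty x y ≠ τ}

theorem relS_anti (lab : V → Ω → C) {W W' : Set V} (h : W' ⊆ W) : relS lab W ⊆ relS lab W' :=
  fun _ hp x hx y hy => hp x (h hx) y (h hy)

theorem inactS_anti (G : SimpleGraph V) (ty : V → V → Finset (Ω × Ω) × Θ) {W W' : Set V}
    (h : W' ⊆ W) : inactS G ty W ⊆ inactS G ty W' :=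
  fun _ hp x hx y hy => hp x (h hx) y (h hy)

/-- All subsets of `W` of large chromatic number look like `W`. -/
structure Stable (G : SimpleGraph V) (lab : V → Ω → C) (ty : V → V → Finset (Ω × Ω) × Θ)
    (W : Set V) (q : ℕ) : Prop where
  rel : ∀ W' ⊆ W, ¬ Col G W' q → relS lab W' ⊆ relS lab W
  act : ∀ W' ⊆ W, ¬ Col G W' q → inactS G ty W' ⊆ inactS G ty W

theorem exists_stable [Fintype Ω] [DecidableEq Ω] [Fintype Θ] (G : SimpleGraph V)
    (lab : V → Ω → C) (ty : V → V → Finset (Ω × Ω) × Θ) (B R : ℕ)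
    (hR : R = Fintype.card (Finset Ω × Ω) + Fintype.card (Finset (Ω × Ω) × Θ)) (hB : 1 ≤ B) :
    ∀ j, ∀ W : Set V, R ≤ (relS lab W).ncard + (inactS G ty W).ncard + j →
      ¬ Col G W (B ^ (j + 1)) → ∃ W' ⊆ W, ∃ q, 1 ≤ q ∧ ¬ Col G W' (B * q) ∧
        Stable G lab ty W' q := by
  classical
  intro j
  induction j with
  | zero =>
    intro W hW hc
    refine ⟨W, Subset.rfl, 1, le_rfl, by simpa using hc, ?_⟩
    have h1 : (relS lab W).ncard ≤ Fintype.card (Finset Ω × Ω) := by
      rw [← Nat.card_eq_fintype_card]; exact Set.ncard_le_card _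
    have h2 : (inactS G ty W).ncard ≤ Fintype.card (Finset (Ω × Ω) × Θ) := by
      rw [← Nat.card_eq_fintype_card]; exact Set.ncard_le_card _
    constructor
    · intro W' _ _
      have : relS lab W = Set.univ := by
        apply Set.eq_of_subset_of_ncard_le (Set.subset_univ _) _ (Set.toFinite _)
        rw [Set.ncard_univ, Nat.card_eq_fintype_card]
        omega
      rw [this]
      exact Set.subset_univ _
    · intro W' _ _
      have : inactS G ty W = Set.univ := by
        apply Set.eq_of_subset_of_ncard_le (Set.subset_univ _) _ (Set.toFinite _)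
        rw [Set.ncard_univ, Nat.card_eq_fintype_card]
        omega
      rw [this]
      exact Set.subset_univ _
  | succ j ih =>
    intro W hW hc
    by_cases hst : Stable G lab ty W (B ^ (j + 1))
    · refine ⟨W, Subset.rfl, B ^ (j + 1), Nat.one_le_pow _ _ hB, ?_, hst⟩
      rw [← pow_succ']
      exact hc
    · have : ∃ W' ⊆ W, ¬ Col G W' (B ^ (j + 1)) ∧
          ((relS lab W).ncard < (relS lab W').ncard ∨
            (inactS G ty W).ncard < (inactS G ty W').ncard) := by
        by_contra hne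
        push Not at hne
        apply hst
        constructor
        · intro W' hW' hc'
          obtain ⟨h1, _⟩ := hne W' hW' hc'
          exact (Set.eq_of_subset_of_ncard_le (relS_anti lab hW') h1 (Set.toFinite _)).ge
        · intro W' hW' hc'
          obtain ⟨_, h1⟩ := hne W' hW' hc'
          exact (Set.eq_of_subset_of_ncard_le (inactS_anti G ty hW') h1 (Set.toFinite _)).ge
      obtain ⟨W', hW', hc', h⟩ := this
      have h1 : (relS lab W).ncard ≤ (relS lab W').ncard :=
        Set.ncard_le_ncard (relS_anti lab hW') (Set.toFinite _)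
      have h2 : (inactS G ty W).ncard ≤ (inactS G ty W').ncard :=
        Set.ncard_le_ncard (inactS_anti G ty hW') (Set.toFinite _)
      obtain ⟨W'', hW'', q, hq, h3, h4⟩ := ih W' (by omega) hc'
      exact ⟨W'', hW''.trans hW', q, hq, h3, h4⟩

/-- The set `I` of labels chosen in a stable set `W`. -/
structure Core (G : SimpleGraph V) (lab : V → Ω → C) (ι : Ω)
    (ty : V → V → Finset (Ω × Ω) × Θ) (a b : Finset (Ω × Ω) × Θ → V → L) (W : Set V) (q : ℕ)
    (I : Finset Ω) : Prop extends Sys G lab ι ty a b where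
  loop : ∀ τ, (∀ x ∈ W, a τ x < b τ x) ∨ (∀ x ∈ W, b τ x ≤ a τ x)
  mini : ∀ x ∈ W, ∀ y ∈ W, G.Adj x y → (∀ p ∈ (ty x y).1, p.2 ∈ I) → ∀ u ∈ W, ∀ v ∈ W,
    (∀ p ∈ (ty x y).1, lab u p.2 = lab v p.2) → ∀ c ∈ I, lab u c = lab v c
  fre : ∀ W' ⊆ W, ∀ c, c ∉ I → (∀ u ∈ W', ∀ v ∈ W', (∀ d ∈ I, lab u d = lab v d) →
    lab u c = lab v c) → Col G W' q
  act : ∀ x ∈ W, ∀ y ∈ W, G.Adj x y → ∀ W' ⊆ W,
    (∀ u ∈ W', ∀ v ∈ W', G.Adj u v → ty u v ≠ ty x y) → Col G W' q

theorem exists_core [Fintype Ω] [DecidableEq Ω] [Fintype Θ] {G : SimpleGraph V}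
    {lab : V → Ω → C} {ι : Ω} {ty : V → V → Finset (Ω × Ω) × Θ}
    {a b : Finset (Ω × Ω) × Θ → V → L} (hS : Sys G lab ι ty a b) {W : Set V} {q : ℕ}
    (hq : 1 ≤ q) (hloop : ∀ τ, (∀ x ∈ W, a τ x < b τ x) ∨ (∀ x ∈ W, b τ x ≤ a τ x))
    (hc : ¬ Col G W q) (hst : Stable G lab ty W q) :
    ∃ I, Core G lab ι ty a b W q I ∧ ∃ x ∈ W, ∃ y ∈ W, G.Adj x y ∧ ∀ p ∈ (ty x y).1, p.2 ∈ I := by
  classical
  -- an edge
  have hedge : ∃ x ∈ W, ∃ y ∈ W, G.Adj x y := by
    by_contra hne
    push Not at hne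
    exact hc ⟨fun _ => 0, fun _ _ => hq, fun x hx y hy h => absurd h (hne x hx y hy)⟩
  let cl : Finset (Ω × Ω) × Θ → Finset Ω := fun τ =>
    Finset.univ.filter fun c => (τ.1.image Prod.snd, c) ∈ relS lab W
  have hact : (Finset.univ.filter fun τ => τ ∉ inactS G ty W).Nonempty := by
    obtain ⟨x, hx, y, hy, h⟩ := hedge
    refine ⟨ty x y, ?_⟩
    rw [Finset.mem_filter]
    refine ⟨Finset.mem_univ _, ?_⟩
    intro hin
    exact hin x hx y hy h rfl
  obtain ⟨τ, hτ, hmin⟩ := Finset.exists_min_image _ (fun τ => (cl τ).card) hact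
  rw [Finset.mem_filter] at hτ
  have hτ' : ∃ x ∈ W, ∃ y ∈ W, G.Adj x y ∧ ty x y = τ := by
    by_contra hne
    push Not at hne
    exact hτ.2 (fun x hx y hy h => hne x hx y hy h)
  have hmemcl : ∀ τ' c, c ∈ cl τ' ↔ ∀ u ∈ W, ∀ v ∈ W,
      (∀ p ∈ τ'.1, lab u p.2 = lab v p.2) → lab u c = lab v c := by
    intro τ' c
    simp only [cl, Finset.mem_filter, Finset.mem_univ, true_and, relS, Set.mem_ofPred_eq]
    constructor
    · intro h u hu v hv huv
      refine h u hu v hv ?_
      intro d hd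
      rw [Finset.mem_image] at hd
      obtain ⟨p, hp, rfl⟩ := hd
      exact huv p hp
    · intro h u hu v hv huv
      refine h u hu v hv ?_
      intro p hp
      exact huv p.2 (Finset.mem_image_of_mem _ hp)
  have hself : ∀ p ∈ τ.1, p.2 ∈ cl τ := by
    intro p hp
    rw [hmemcl]
    intro u _ v _ huv
    exact huv p hp
  refine ⟨cl τ, ⟨hS, hloop, ?_, ?_, ?_⟩, ?_⟩
  · intro x hx y hy hadj hsub
    have h1 : cl (ty x y) ⊆ cl τ := by
      intro c hc
      rw [hmemcl] at hc ⊢
      intro u hu v hv huv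
      refine hc u hu v hv ?_
      intro p hp
      exact (hmemcl τ p.2).1 (hsub p hp) u hu v hv huv
    have h2 : (cl τ).card ≤ (cl (ty x y)).card := by
      apply hmin
      rw [Finset.mem_filter]
      refine ⟨Finset.mem_univ _, ?_⟩
      intro hin
      exact hin x hx y hy hadj rfl
    have h3 := Finset.eq_of_subset_of_card_le h1 h2
    intro u hu v hv huv c hc
    rw [← h3] at hc
    exact (hmemcl _ c).1 hc u hu v hv huv
  · intro W' hW' c hcI h
    by_contra hne
    have h1 := hst.rel W' hW' hne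
    have h2 : (cl τ, c) ∈ relS lab W := h1 h
    apply hcI
    rw [hmemcl]
    intro u hu v hv huv
    refine h2 u hu v hv ?_
    intro d hd
    exact (hmemcl τ d).1 hd u hu v hv huv
  · intro x hx y hy hadj W' hW' h
    by_contra hne
    have h1 : ty x y ∈ inactS G ty W := hst.act W' hW' hne h
    exact h1 x hx y hy hadj rfl
  · obtain ⟨x, hx, y, hy, h, rfl⟩ := hτ'
    exact ⟨x, hx, y, hy, h, hself⟩

end Pool.Agent.N471.EL
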