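import Pool.Agent.N471.EL.Nd

set_option autoImplicit false

namespace Pool.Agent.N471.EL

open Set Pool.Agent.H367R3

universe u v w u' v'

variable {V : Type u} {Ω : Type v} {C : Type w} {Θ : Type u'} {L : Type v'} [LinearOrder L]
  [DecidableEq Ω] [Fintype Ω]
  {G : SimpleGraph V} {lab : V → Ω → C} {ι : Ω}
  {ty : V → V → Finset (Ω × Ω) × Θ} {a b : Finset (Ω × Ω) × Θ → V → L} {W : Set V} {q : ℕ}
  {τ : Finset (Ω × Ω) × Θ} {I : Finset Ω} {ρ : V → L} {P : V → V → Prop} {N : ℕ}

open Classical in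
/-- The label `d0` of the members of `W` which have the coincidences `E` with `z`. -/
noncomputable def hv (lab : V → Ω → C) (W : Set V) (d0 : Ω) (z : V) (E : Finset (Ω × Ω)) : C :=
  if h : ∃ y, y ∈ W ∧ ∀ p ∈ E, lab z p.1 = lab y p.2 then lab h.choose d0 else lab z d0

theorem hv_eq {d0 : Ω} {z : V} {E : Finset (Ω × Ω)}
    (hcl : ∀ u ∈ W, ∀ v ∈ W, (∀ p ∈ E, lab u p.2 = lab v p.2) → lab u d0 = lab v d0)
    {y : V} (hy : y ∈ W) (hz : ∀ p ∈ E, lab z p.1 = lab y p.2) :
    lab y d0 = hv lab W d0 z E := by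
  have hex : ∃ y, y ∈ W ∧ ∀ p ∈ E, lab z p.1 = lab y p.2 := ⟨y, hy, hz⟩
  unfold hv
  rw [dif_pos hex]
  refine hcl y hy _ hex.choose_spec.1 ?_
  intro p hp
  rw [← hz p hp, hex.choose_spec.2 p hp]

open Classical in
noncomputable def UU (lab : V → Ω → C) (W : Set V) (d0 : Ω) (z : V) : Finset C :=
  Finset.univ.image (lab z) ∪ Finset.univ.image (hv lab W d0 z)

theorem UU_card (lab : V → Ω → C) (W : Set V) (d0 : Ω) (z : V) :
    (UU lab W d0 z).card ≤ Fintype.card Ω + Fintype.card (Finset (Ω × Ω)) := by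
  classical
  unfold UU
  refine (Finset.card_union_le _ _).trans (Nat.add_le_add ?_ ?_)
  · exact Finset.card_image_le.trans (by rw [Finset.card_univ])
  · exact Finset.card_image_le.trans (by rw [Finset.card_univ])

theorem lab_mem_UU (lab : V → Ω → C) (W : Set V) (d0 : Ω) (z : V) (c : Ω) :
    lab z c ∈ UU lab W d0 z := by
  classical
  unfold UU
  exact Finset.mem_union_left _ (Finset.mem_image_of_mem _ (Finset.mem_univ _))

theorem hv_mem_UU (lab : V → Ω → C) (W : Set V) (d0 : Ω) (z : V) (E : Finset (Ω × Ω)) :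
    hv lab W d0 z E ∈ UU lab W d0 z := by
  classical
  unfold UU
  exact Finset.mem_union_right _ (Finset.mem_image_of_mem _ (Finset.mem_univ _))

theorem exists_seq (d0 : Ω) (p : ℕ → ℕ) (hp : ∀ j, 1 ≤ j → p j < j) (M : ℕ)
    (hN : 2 * (M + 1) * (Fintype.card Ω + Fintype.card (Finset (Ω × Ω))) ≤ N)
    (hne : (Lv G lab ty P τ I ρ N W (2 * M + 2)).Nonempty) :
    ∀ n, n ≤ M → ∃ x w : ℕ → V,
      (∀ j, j ≤ n → x j ∈ Lv G lab ty P τ I ρ N W (2 * (M - j) + 2) ∧
        w j ∈ Lv G lab ty P τ I ρ N W (2 * (M - j) + 1) ∧ G.Adj (x j) (w j) ∧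
        ty (x j) (w j) = τ) ∧
      (∀ j, 1 ≤ j → j ≤ n → ag lab I (x j) (w (p j)) ∧ ρ (w (p j)) ≤ ρ (x j) ∧
        ∀ i, i < j → ∀ c, c ∉ I → lab (x j) c ∉ UU lab W d0 (x i) ∧
          lab (x j) c ∉ UU lab W d0 (w i)) := by
  classical
  intro n
  induction n with
  | zero =>
    intro _
    obtain ⟨x0, hx0⟩ := hne
    obtain ⟨w0, hw0, hadj, hty, _⟩ := hx0.2.2
    refine ⟨fun _ => x0, fun _ => w0, ?_, ?_⟩
    · intro j hj
      have : j = 0 := by omega
      subst this
      exact ⟨hx0, hw0, hadj, hty⟩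
    · intro j h1 h2
      omega
  | succ n ih =>
    intro hn
    obtain ⟨x, w, h1, h2⟩ := ih (by omega)
    have hpn : p (n + 1) < n + 1 := hp _ (by omega)
    obtain ⟨_, hw, _, _⟩ := h1 (p (n + 1)) (by omega)
    have hrich : rich lab I ρ N (Lv G lab ty P τ I ρ N W (2 * (M - p (n + 1)))) (w (p (n + 1))) :=
      hw.2.1
    let U : Finset C := (Finset.range (n + 1)).biUnion fun i =>
      UU lab W d0 (x i) ∪ UU lab W d0 (w i)
    have hUc : U.card ≤ N := by
      have h3 : U.card ≤ (Finset.range (n + 1)).card *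
          (2 * (Fintype.card Ω + Fintype.card (Finset (Ω × Ω)))) := by
        refine Finset.card_biUnion_le_card_mul _ _ _ ?_
        intro i _
        refine (Finset.card_union_le _ _).trans ?_
        have := UU_card lab W d0 (x i)
        have := UU_card lab W d0 (w i)
        omega
      rw [Finset.card_range] at h3
      calc U.card ≤ (n + 1) * (2 * (Fintype.card Ω + Fintype.card (Finset (Ω × Ω)))) := h3
        _ ≤ (M + 1) * (2 * (Fintype.card Ω + Fintype.card (Finset (Ω × Ω)))) :=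
            Nat.mul_le_mul_right _ (by omega)
        _ = 2 * (M + 1) * (Fintype.card Ω + Fintype.card (Finset (Ω × Ω))) := by ring
        _ ≤ N := hN
    obtain ⟨z, hz1, hz2, hz3, hz4⟩ := hrich U hUc
    have hz1' : z ∈ Lv G lab ty P τ I ρ N W (2 * (M - (n + 1)) + 2) :=
      Lv_anti G lab ty P τ I ρ N W (by omega) hz1
    obtain ⟨v, hv1, hv2, hv3, _⟩ := hz1'.2.2
    refine ⟨fun j => if j = n + 1 then z else x j, fun j => if j = n + 1 then v else w j, ?_, ?_⟩
    · intro j hj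
      by_cases hjn : j = n + 1
      · subst hjn
        simp only [if_true]
        exact ⟨hz1', hv1, hv2, hv3⟩
      · simp only [hjn, if_false]
        exact h1 j (by omega)
    · intro j hj1 hj2
      have hpj : p j < j := hp j hj1
      have hpj' : p j ≠ n + 1 := by omega
      by_cases hjn : j = n + 1
      · subst hjn
        simp only [if_true, hpj', if_false]
        refine ⟨hz2, hz3, ?_⟩
        intro i hi c hc
        have hin : i ≠ n + 1 := by omega
        simp only [hin, if_false]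
        have h5 := hz4 c hc
        constructor
        · intro h6
          apply h5
          exact Finset.mem_biUnion.2 ⟨i, Finset.mem_range.2 hi, Finset.mem_union_left _ h6⟩
        · intro h6
          apply h5
          exact Finset.mem_biUnion.2 ⟨i, Finset.mem_range.2 hi, Finset.mem_union_right _ h6⟩
      · simp only [hjn, hpj', if_false]
        obtain ⟨h3, h4, h5⟩ := h2 j hj1 (by omega)
        refine ⟨h3, h4, ?_⟩
        intro i hi c hc
        have hin : i ≠ n + 1 := by omega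
        simp only [hin, if_false]
        exact h5 i hi c hc

/-- The vertices of a generic sequence form a tree. -/
theorem adj_iff (hC : Core G lab ι ty a b W q I)
    (hfree : ∀ x ∈ W, ∀ y ∈ W, G.Adj x y → (∀ p ∈ (ty x y).1, p.2 ∈ I) →
      ∃ p ∈ (ty x y).1, p.1 ∉ I) (hι : ι ∉ I) (hsnd : ∀ p ∈ τ.1, p.2 ∈ I)
    {p0 : Ω × Ω} (hp0 : p0 ∈ τ.1)
    (hp0I : p0.1 ∉ I) (p : ℕ → ℕ) (hp : ∀ j, 1 ≤ j → p j < j) (M : ℕ) (x w : ℕ → V)
    (h1 : ∀ j, j ≤ M → x j ∈ Lv G lab ty P τ I (b τ) N W (2 * (M - j) + 2) ∧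
        w j ∈ Lv G lab ty P τ I (b τ) N W (2 * (M - j) + 1) ∧ G.Adj (x j) (w j) ∧
        ty (x j) (w j) = τ)
    (h2 : ∀ j, 1 ≤ j → j ≤ M → ag lab I (x j) (w (p j)) ∧ b τ (w (p j)) ≤ b τ (x j) ∧
        ∀ i, i < j → ∀ c, c ∉ I → lab (x j) c ∉ UU lab W p0.2 (x i) ∧
          lab (x j) c ∉ UU lab W p0.2 (w i)) :
    ∀ i j, i < j → j ≤ M → x i ≠ x j ∧ (G.Adj (x i) (x j) ↔ p j = i) := by
  intro i j hij hj
  have hxW : ∀ n, n ≤ M → x n ∈ W := fun n hn =>
    Lv_anti G lab ty P τ I (b τ) N W (Nat.zero_le _) (h1 n hn).1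
  have hwW : ∀ n, n ≤ M → w n ∈ W := fun n hn =>
    Lv_anti G lab ty P τ I (b τ) N W (Nat.zero_le _) (h1 n hn).2.1
  have hxw : ∀ n, n ≤ M → ∀ r ∈ τ.1, lab (x n) r.1 = lab (w n) r.2 := by
    intro n hn r hr
    rw [← hC.pat, (h1 n hn).2.2.2]
    exact hr
  obtain ⟨g1, g2, g3⟩ := h2 j (by omega) hj
  have hd0 : p0.2 ∈ I := hsnd _ hp0
  have hne : x i ≠ x j := by
    intro h
    apply (g3 i hij ι hι).1
    rw [← h]
    exact lab_mem_UU lab W p0.2 (x i) ι
  refine ⟨hne, ?_⟩
  have hpj : p j < j := hp j (by omega)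
  have hpat2 : ∀ r, r ∈ (ty (x i) (x j)).1 → r.2 ∈ I := by
    intro r hr
    by_contra hrI
    rw [hC.pat] at hr
    apply (g3 i hij r.2 hrI).1
    rw [← hr]
    exact lab_mem_UU lab W p0.2 (x i) r.1
  constructor
  · intro hadj
    by_contra hpi
    rcases lt_or_gt_of_ne hpi with ha | ha
    · -- the parent is older than `x i`
      have hi1 : 1 ≤ i := by omega
      obtain ⟨f1, f2, f3⟩ := h2 i hi1 (by omega)
      obtain ⟨r, hr, hrI⟩ := hfree (x i) (hxW i (by omega)) (x j) (hxW j hj) hadj hpat2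
      have hr2 := hpat2 r hr
      rw [hC.pat, g1 r.2 hr2] at hr
      apply (f3 (p j) ha r.1 hrI).2
      rw [hr]
      exact lab_mem_UU lab W p0.2 (w (p j)) r.2
    · -- the parent is younger than `x i`
      have hmin := hC.mini (x i) (hxW i (by omega)) (x j) (hxW j hj) hadj hpat2
      have h3 : lab (x j) p0.2 = hv lab W p0.2 (x i) (ty (x i) (x j)).1 := by
        apply hv_eq
        · intro u hu v hv huv
          exact hmin u hu v hv huv p0.2 hd0
        · exact hxW j hj
        · intro r hr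
          exact (hC.pat _ _ _).1 hr
      obtain ⟨e1, e2, e3⟩ := h2 (p j) (by omega) (by omega)
      apply (e3 i ha p0.1 hp0I).1
      rw [hxw (p j) (by omega) p0 hp0, ← g1 p0.2 hd0, h3]
      exact hv_mem_UU _ _ _ _ _
  · intro hpi
    subst hpi
    obtain ⟨_, _, k3, k4⟩ := h1 (p j) (by omega)
    refine hC.adj τ (x (p j)) (x j) hne ?_ ?_
    · ext r
      constructor
      · intro hr
        have hr2 := hpat2 r hr
        rw [← k4, hC.pat, ← g1 r.2 hr2]
        exact (hC.pat _ _ _).1 hr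
      · intro hr
        have hr2 := hsnd r hr
        rw [hC.pat, g1 r.2 hr2]
        exact hxw _ (by omega) r hr
    · have h5 := hC.lt _ _ k3
      rw [k4] at h5
      exact h5.trans_le g2

end Pool.Agent.N471.EL
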