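import Pool.Agent.N471.EL.Main

set_option autoImplicit false

namespace Pool.Agent.N471.EL

open Set Pool.Agent.H367R3

theorem bound (s1 u K0 R : ℕ) : ∃ A : ℕ, 1 ≤ A ∧ ∀ m k N B : ℕ, 1 ≤ m →
    N = 2 * (m + 1) * (s1 + u) + (k + 1) * s1 + 1 →
    B = 3 + (2 * m + 2 + (2 * k + 1)) * (s1 * N + 3) →
    K0 * B ^ (R + 1) ≤ A * (m + k) ^ (2 * (R + 1)) := by
  refine ⟨(K0 * (3 + 5 * (s1 * (4 * (s1 + u) + s1 + 1) + 3)) ^ (R + 1)) + 1,
    Nat.le_add_left _ _, ?_⟩
  intro m k N B hm hN hB
  have hn : 1 ≤ m + k := by omega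
  have h1 : N ≤ (m + k) * (4 * (s1 + u) + s1 + 1) := by
    rw [hN]
    have e1 : 2 * (m + 1) * (s1 + u) ≤ (m + k) * (4 * (s1 + u)) := by
      have : 2 * (m + 1) ≤ (m + k) * 4 := by omega
      calc 2 * (m + 1) * (s1 + u) ≤ (m + k) * 4 * (s1 + u) := Nat.mul_le_mul_right _ this
        _ = (m + k) * (4 * (s1 + u)) := by ring
    have e2 : (k + 1) * s1 ≤ (m + k) * s1 := Nat.mul_le_mul_right _ (by omega)
    calc 2 * (m + 1) * (s1 + u) + (k + 1) * s1 + 1
        ≤ (m + k) * (4 * (s1 + u)) + (m + k) * s1 + (m + k) := by omega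
      _ = (m + k) * (4 * (s1 + u) + s1 + 1) := by ring
  have h2 : s1 * N + 3 ≤ (m + k) * (s1 * (4 * (s1 + u) + s1 + 1) + 3) := by
    calc s1 * N + 3 ≤ s1 * ((m + k) * (4 * (s1 + u) + s1 + 1)) + (m + k) * 3 :=
          Nat.add_le_add (Nat.mul_le_mul_left _ h1) (by omega)
      _ = (m + k) * (s1 * (4 * (s1 + u) + s1 + 1) + 3) := by ring
  have h3 : B ≤ (m + k) ^ 2 * (3 + 5 * (s1 * (4 * (s1 + u) + s1 + 1) + 3)) := by
    rw [hB]
    have e1 : 2 * m + 2 + (2 * k + 1) ≤ 5 * (m + k) := by omega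
    have e2 : 1 ≤ (m + k) ^ 2 := Nat.one_le_pow _ _ hn
    calc 3 + (2 * m + 2 + (2 * k + 1)) * (s1 * N + 3)
        ≤ (m + k) ^ 2 * 3 + 5 * (m + k) * ((m + k) * (s1 * (4 * (s1 + u) + s1 + 1) + 3)) :=
          Nat.add_le_add (by omega) (Nat.mul_le_mul e1 h2)
      _ = (m + k) ^ 2 * (3 + 5 * (s1 * (4 * (s1 + u) + s1 + 1) + 3)) := by ring
  calc K0 * B ^ (R + 1)
      ≤ K0 * ((m + k) ^ 2 * (3 + 5 * (s1 * (4 * (s1 + u) + s1 + 1) + 3))) ^ (R + 1) :=
        Nat.mul_le_mul_left _ (Nat.pow_le_pow_left h3 _)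
    _ = (K0 * (3 + 5 * (s1 * (4 * (s1 + u) + s1 + 1) + 3)) ^ (R + 1)) *
        (m + k) ^ (2 * (R + 1)) := by
        rw [mul_pow, ← pow_mul]
        ring
    _ ≤ _ := Nat.mul_le_mul_right _ (Nat.le_succ _)

/-- The set of the coincidences between the labels of `x` and of `y`. -/
def pattern {V C : Type} {s : ℕ} (lab : V → Fin s → C) (x y : V) : Set (Fin s × Fin s) :=
  {p | lab x p.1 = lab y p.2}

/-- `G` has an adjacency scheme with `s` labels and `r` thresholds. -/
def HasScheme (s r : ℕ) {V : Type} (G : SimpleGraph V) : Prop :=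
  ∃ (C L : Type) (_ : LinearOrder L) (lab : V → Fin s → C)
    (a b : Set (Fin s × Fin s) → Fin r → V → L), ∀ x y, x ≠ y →
      (G.Adj x y ↔ ∃ i, a (pattern lab x y) i x < b (pattern lab x y) i y)

theorem exists_sys {s r : ℕ} {V : Type} {G : SimpleGraph V} (h : HasScheme s r G) :
    ∃ (C L : Type) (_ : LinearOrder L) (lab : V → Option (Fin s) → C)
      (ty : V → V → Finset (Option (Fin s) × Option (Fin s)) × Option (Fin r))
      (a b : Finset (Option (Fin s) × Option (Fin s)) × Option (Fin r) → V → L),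
      Sys G lab none ty a b := by
  classical
  obtain ⟨C, L, _, lab, a, b, hA⟩ := h
  let lab' : V → Option (Fin s) → C ⊕ V := fun x c =>
    match c with
    | none => Sum.inr x
    | some c => Sum.inl (lab x c)
  let orig : Finset (Option (Fin s) × Option (Fin s)) → Set (Fin s × Fin s) := fun E =>
    {p | (some p.1, some p.2) ∈ E}
  let pat : V → V → Finset (Option (Fin s) × Option (Fin s)) := fun x y =>
    Finset.univ.filter fun p => lab' x p.1 = lab' y p.2
  have horig : ∀ x y, orig (pat x y) = pattern lab x y := by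
    intro x y
    ext p
    simp [orig, pat, pattern, lab']
  let ty : V → V → Finset (Option (Fin s) × Option (Fin s)) × Option (Fin r) := fun x y =>
    (pat x y, if h : ∃ i, a (pattern lab x y) i x < b (pattern lab x y) i y then some h.choose
      else none)
  let a' : Finset (Option (Fin s) × Option (Fin s)) × Option (Fin r) → V → WithBot L :=
    fun τ x => match τ.2 with
      | none => ⊥
      | some i => (a (orig τ.1) i x : WithBot L)
  let b' : Finset (Option (Fin s) × Option (Fin s)) × Option (Fin r) → V → WithBot L :=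
    fun τ x => match τ.2 with
      | none => ⊥
      | some i => (b (orig τ.1) i x : WithBot L)
  refine ⟨C ⊕ V, WithBot L, inferInstance, lab', ty, a', b', ?_, ?_, ?_, ?_⟩
  · intro x y p
    simp [ty, pat]
  · intro x y hadj
    have hex := (hA x y hadj.ne).1 hadj
    have h2 : (ty x y).2 = some hex.choose := by
      show (if h : ∃ i, a (pattern lab x y) i x < b (pattern lab x y) i y then some h.choose
        else none) = _
      rw [dif_pos hex]
    have ha : a' (ty x y) x = (a (orig (ty x y).1) hex.choose x : WithBot L) := by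
      show (match (ty x y).2 with
        | none => (⊥ : WithBot L)
        | some i => (a (orig (ty x y).1) i x : WithBot L)) = _
      rw [h2]
    have hb : b' (ty x y) y = (b (orig (ty x y).1) hex.choose y : WithBot L) := by
      show (match (ty x y).2 with
        | none => (⊥ : WithBot L)
        | some i => (b (orig (ty x y).1) i y : WithBot L)) = _
      rw [h2]
    rw [ha, hb, WithBot.coe_lt_coe]
    show a (orig (pat x y)) _ x < b (orig (pat x y)) _ y
    rw [horig]
    exact hex.choose_spec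
  · rintro ⟨E, o⟩ x y hxy hE hlt
    rw [hA x y hxy]
    have hE' : pat x y = E := hE
    cases o with
    | none =>
      exact absurd hlt (lt_irrefl _)
    | some i =>
      refine ⟨i, ?_⟩
      have h3 : (a (orig E) i x : WithBot L) < (b (orig E) i y : WithBot L) := hlt
      rw [WithBot.coe_lt_coe, ← hE', horig] at h3
      exact h3
  · intro x y h
    exact Sum.inr.inj h

theorem main (s r : ℕ) : ∃ A d : ℕ, ∀ (m : ℕ) (F : SimpleGraph (Fin m)), F.IsAcyclic →
    ∀ (V : Type) [Finite V] (G : SimpleGraph V), HasScheme s r G → ¬ F.IsIndContained G →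
      ∀ k, G.CliqueFree (k + 1) → G.Colorable (A * (m + k) ^ d) := by
  classical
  obtain ⟨R, hR⟩ : ∃ R, R = Fintype.card (Finset (Option (Fin s)) × Option (Fin s)) +
    Fintype.card (Finset (Option (Fin s) × Option (Fin s)) × Option (Fin r)) := ⟨_, rfl⟩
  obtain ⟨A, _, hA⟩ := bound (Fintype.card (Option (Fin s)))
    (Fintype.card (Finset (Option (Fin s) × Option (Fin s))))
    (2 ^ Fintype.card (Finset (Option (Fin s) × Option (Fin s)) × Option (Fin r))) R
  refine ⟨A, 2 * (R + 1), ?_⟩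
  intro m F hF V _ G hG hFG k hk
  have hm : 1 ≤ m := by
    by_contra h
    have : m = 0 := by omega
    subst this
    apply hFG
    exact ⟨⟨⟨fun x => x.elim0, fun x => x.elim0⟩, fun {x} => x.elim0⟩⟩
  obtain ⟨T, hT, ⟨e⟩⟩ := forest_in_tree F hF
  have hTG : ¬ Nonempty (T ↪g G) := fun ⟨f⟩ => hFG ⟨e.trans f⟩
  obtain ⟨C, L, _, lab, ty, a, b, hS⟩ := exists_sys hG
  obtain ⟨f, f1, f2⟩ := main_core hS hk T hT hTG _ _ R rfl rfl hR
  have hb := hA m k _ _ hm rfl rfl
  refine ⟨SimpleGraph.Coloring.mk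
    (fun x => (⟨f x, (f1 x (Set.mem_univ _)).trans_le hb⟩ : Fin _)) ?_⟩
  intro x y hadj h
  exact f2 x (Set.mem_univ _) y (Set.mem_univ _) hadj (congrArg Fin.val h)

end Pool.Agent.N471.EL
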