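import Pool.Agent.N471.EL.Core

set_option autoImplicit false

namespace Pool.Agent.N471.EL

open Set Pool.Agent.H367R3

universe u v w u' v'

variable {V : Type u} {Ω : Type v} {C : Type w} {Θ : Type u'} {L : Type v'} [LinearOrder L]

/-- `x` and `y` have the same labels at the places in `I`. -/
def ag (lab : V → Ω → C) (I : Finset Ω) (x y : V) : Prop := ∀ c ∈ I, lab x c = lab y c

/-- The part of the cell of `y` in `W'` above `y` cannot be covered by few values. -/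
def rich (lab : V → Ω → C) (I : Finset Ω) (ρ : V → L) (N : ℕ) (W' : Set V) (y : V) : Prop :=
  ∀ U : Finset C, U.card ≤ N → ∃ z ∈ W', ag lab I z y ∧ ρ y ≤ ρ z ∧ ∀ c, c ∉ I → lab z c ∉ U

/-- The next level: rich vertices with a neighbour of type `τ` with the property `P`. -/
def nxt (G : SimpleGraph V) (lab : V → Ω → C) (ty : V → V → Finset (Ω × Ω) × Θ)
    (P : V → V → Prop) (τ : Finset (Ω × Ω) × Θ) (I : Finset Ω) (ρ : V → L) (N : ℕ)
    (W' : Set V) : Set V :=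
  {y | y ∈ W' ∧ rich lab I ρ N W' y ∧ ∃ z ∈ W', G.Adj y z ∧ ty y z = τ ∧ P y z}

/-- The levels. -/
def Lv (G : SimpleGraph V) (lab : V → Ω → C) (ty : V → V → Finset (Ω × Ω) × Θ)
    (P : V → V → Prop) (τ : Finset (Ω × Ω) × Θ) (I : Finset Ω) (ρ : V → L) (N : ℕ)
    (W : Set V) : ℕ → Set V
  | 0 => W
  | t + 1 => nxt G lab ty P τ I ρ N (Lv G lab ty P τ I ρ N W t)

theorem Lv_anti (G : SimpleGraph V) (lab : V → Ω → C) (ty : V → V → Finset (Ω × Ω) × Θ)
    (P : V → V → Prop) (τ : Finset (Ω × Ω) × Θ) (I : Finset Ω) (ρ : V → L) (N : ℕ)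
    (W : Set V) : Antitone (Lv G lab ty P τ I ρ N W) := by
  apply antitone_nat_of_succ_le
  rintro t y ⟨hy, _⟩
  exact hy

variable [DecidableEq Ω]

def key (lab : V → Ω → C) (I : Finset Ω) (y : V) : Ω → Option C :=
  fun c => if c ∈ I then some (lab y c) else none

theorem key_eq {lab : V → Ω → C} {I : Finset Ω} {x y : V} :
    key lab I x = key lab I y ↔ ag lab I x y := by
  constructor
  · intro h c hc
    have := congrFun h c
    simp only [key, hc, if_true] at this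
    exact Option.some.inj this
  · intro h
    funext c
    by_cases hc : c ∈ I
    · simp only [key, hc, if_true]
      rw [h c hc]
    · simp only [key, hc, if_false]

theorem col_poor [Fintype Ω] [Finite V] {G : SimpleGraph V} {lab : V → Ω → C} {ι : Ω}
    {ty : V → V → Finset (Ω × Ω) × Θ} {a b : Finset (Ω × Ω) × Θ → V → L} {W : Set V} {q : ℕ}
    {I : Finset Ω} (hC : Core G lab ι ty a b W q I) (ρ : V → L) {N : ℕ} (hN : 0 < N)
    {W' : Set V} (hW' : W' ⊆ W) :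
    Col G {y | y ∈ W' ∧ ¬ rich lab I ρ N W' y} (Fintype.card Ω * N * q) := by
  classical
  have hU : ∀ κ : Ω → Option C, ∃ U : Finset C, U.card ≤ N ∧ ∀ y ∈ W', ¬ rich lab I ρ N W' y →
      key lab I y = κ → ∃ c, c ∉ I ∧ lab y c ∈ U := by
    intro κ
    by_cases hex : ({y | y ∈ W' ∧ ¬ rich lab I ρ N W' y ∧ key lab I y = κ} : Set V).Nonempty
    · -- the lowest member
      obtain ⟨m, ⟨hm1, hm2, hm3⟩, hm4⟩ := Set.exists_min_image _ ρ (Set.toFinite _) hex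
      have hm2' := hm2
      unfold rich at hm2'
      push Not at hm2'
      obtain ⟨U, hUc, hU⟩ := hm2'
      refine ⟨U, hUc, ?_⟩
      intro y hy hyr hyk
      have hle : ρ m ≤ ρ y := hm4 y ⟨hy, hyr, hyk⟩
      obtain ⟨c, hc1, hc2⟩ := hU y hy (key_eq.1 (hyk.trans hm3.symm)) hle
      exact ⟨c, hc1, hc2⟩
    · refine ⟨∅, Nat.zero_le _, ?_⟩
      intro y hy hyr hyk
      exact absurd ⟨y, hy, hyr, hyk⟩ hex
  choose U hU1 hU2 using hU
  have hidx : ∀ κ, ∃ f : C → Fin N, ∀ a ∈ U κ, ∀ b ∈ U κ, f a = f b → a = b := fun κ =>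
    exists_idx (U κ) (hU1 κ) hN
  choose idx hidx using hidx
  have hcf : ∀ y, ∃ c, y ∈ W' → ¬ rich lab I ρ N W' y → c ∉ I ∧ lab y c ∈ U (key lab I y) := by
    intro y
    by_cases h : y ∈ W' ∧ ¬ rich lab I ρ N W' y
    · obtain ⟨c, hc⟩ := hU2 _ y h.1 h.2 rfl
      exact ⟨c, fun _ _ => hc⟩
    · exact ⟨ι, fun h1 h2 => absurd ⟨h1, h2⟩ h⟩
  choose cf hcf using hcf
  have hcard : Fintype.card Ω * N = Fintype.card (Ω × Fin N) := by simp
  rw [hcard]
  refine Col.glueT (fun y => (cf y, idx (key lab I y) (lab y (cf y)))) ?_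
  rintro ⟨c, l⟩
  by_cases hne : ∃ y, (y ∈ W' ∧ ¬ rich lab I ρ N W' y) ∧
      (cf y, idx (key lab I y) (lab y (cf y))) = (c, l)
  · obtain ⟨y0, ⟨hy0, hy0r⟩, hy0c⟩ := hne
    have hcI : c ∉ I := by
      have h1 := (hcf y0 hy0 hy0r).1
      have h2 : cf y0 = c := congrArg Prod.fst hy0c
      rwa [h2] at h1
    refine hC.fre _ ?_ c hcI ?_
    · rintro y ⟨⟨hy, _⟩, _⟩
      exact hW' hy
    · rintro u ⟨⟨hu, hur⟩, huc⟩ v ⟨⟨hv, hvr⟩, hvc⟩ huv
      have hu1 : cf u = c := congrArg Prod.fst huc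
      have hv1 : cf v = c := congrArg Prod.fst hvc
      have hu2 : idx (key lab I u) (lab u (cf u)) = l := congrArg Prod.snd huc
      have hv2 : idx (key lab I v) (lab v (cf v)) = l := congrArg Prod.snd hvc
      have hk : key lab I u = key lab I v := key_eq.2 huv
      have hu3 := (hcf u hu hur).2
      have hv3 := (hcf v hv hvr).2
      rw [hu1] at hu2 hu3
      rw [hv1] at hv2 hv3
      rw [hk] at hu2 hu3
      exact hidx _ _ hu3 _ hv3 (hu2.trans hv2.symm)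
  · refine Col.empty' ?_ _
    rw [Set.eq_empty_iff_forall_notMem]
    rintro y ⟨h1, h2⟩
    exact hne ⟨y, h1, h2⟩

theorem col_nxt [Fintype Ω] [Finite V] {G : SimpleGraph V} {lab : V → Ω → C} {ι : Ω}
    {ty : V → V → Finset (Ω × Ω) × Θ} {a b : Finset (Ω × Ω) × Θ → V → L} {W : Set V} {q : ℕ}
    {I : Finset Ω} (hC : Core G lab ι ty a b W q I) (P : V → V → Prop)
    (τ : Finset (Ω × Ω) × Θ) (ρ : V → L) {N : ℕ} (hN : 0 < N) (r : ℕ)
    (hr : ∀ W' ⊆ W, (∀ u ∈ W', ∀ v ∈ W', G.Adj u v → ty u v = τ → ¬ P u v) → Col G W' (r * q))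
    {W' : Set V} (hW' : W' ⊆ W) {n : ℕ}
    (hb : ¬ Col G W' ((n + (Fintype.card Ω * N + r)) * q)) :
    ¬ Col G (nxt G lab ty P τ I ρ N W') (n * q) := by
  intro h
  apply hb
  have h1 := col_poor hC ρ hN hW'
  have h2 : Col G {y | y ∈ W' ∧ ¬ ∃ z ∈ W', G.Adj y z ∧ ty y z = τ ∧ P y z} (r * q) := by
    apply hr
    · rintro y ⟨hy, _⟩
      exact hW' hy
    · rintro u ⟨_, hu2⟩ v ⟨hv, _⟩ huv huv2 huv3
      exact hu2 ⟨v, hv, huv, huv2, huv3⟩
  refine Col.mono' (Col.union (Col.union h h1) h2) ?_ (le_of_eq (by ring))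
  intro y hy
  by_cases hr : rich lab I ρ N W' y
  · by_cases hz : ∃ z ∈ W', G.Adj y z ∧ ty y z = τ ∧ P y z
    · exact Or.inl (Or.inl ⟨hy, hr, hz⟩)
    · exact Or.inr ⟨hy, hz⟩
  · exact Or.inl (Or.inr ⟨hy, hr⟩)

theorem col_Lv [Fintype Ω] [Finite V] {G : SimpleGraph V} {lab : V → Ω → C} {ι : Ω}
    {ty : V → V → Finset (Ω × Ω) × Θ} {a b : Finset (Ω × Ω) × Θ → V → L} {W : Set V} {q : ℕ}
    {I : Finset Ω} (hC : Core G lab ι ty a b W q I) (P : V → V → Prop)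
    (τ : Finset (Ω × Ω) × Θ) (ρ : V → L) {N : ℕ} (hN : 0 < N) (r : ℕ)
    (hr : ∀ W' ⊆ W, (∀ u ∈ W', ∀ v ∈ W', G.Adj u v → ty u v = τ → ¬ P u v) → Col G W' (r * q))
    (t n : ℕ) (hb : ¬ Col G W ((n + t * (Fintype.card Ω * N + r)) * q)) :
    ¬ Col G (Lv G lab ty P τ I ρ N W t) (n * q) := by
  induction t generalizing n with
  | zero =>
    simpa [Lv] using hb
  | succ t ih =>
    refine col_nxt hC P τ ρ hN r hr (Lv_anti G lab ty P τ I ρ N W (Nat.zero_le t)) (ih _ ?_)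
    intro h
    apply hb
    refine Col.mono' h Subset.rfl (le_of_eq ?_)
    ring

end Pool.Agent.N471.EL
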