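import Pool.Agent.N471.EL.Emb

set_option autoImplicit false

namespace Pool.Agent.N471.EL

open Set Pool.Agent.H367R3

universe u v w u' v'

/-- An enumeration of a tree in which every vertex but the first has exactly one earlier
neighbour. -/
theorem tree_enum (N : ℕ) : ∀ (α : Type) [Fintype α] (T : SimpleGraph α), T.IsTree →
    Fintype.card α = N + 1 → ∃ (f : α → ℕ) (p : ℕ → ℕ), Function.Injective f ∧ (∀ a, f a ≤ N) ∧
      (∀ j, 1 ≤ j → p j < j) ∧ ∀ a b, f a < f b → (T.Adj a b ↔ p (f b) = f a) := by
  classical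
  induction N with
  | zero =>
    intro α _ T _ hcard
    have hsub : Subsingleton α := Fintype.card_le_one_iff_subsingleton.1 (by omega)
    refine ⟨fun _ => 0, fun _ => 0, fun a b _ => Subsingleton.elim a b, fun _ => le_rfl,
      fun j hj => hj, ?_⟩
    intro a b h
    exact absurd h (lt_irrefl _)
  | succ N ih =>
    intro α _ T hT hcard
    have hnt : Nontrivial α := Fintype.one_lt_card_iff_nontrivial.1 (by omega)
    obtain ⟨l, hl⟩ := hT.exists_vert_degree_one_of_nontrivial
    have hconn := hT.connected.induce_compl_singleton_of_degree_eq_one hl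
    have hT' : (T.induce ({l}ᶜ : Set α)).IsTree := ⟨hconn, hT.isAcyclic.induce _⟩
    have hcard' : Fintype.card ({l}ᶜ : Set α) = N + 1 := by
      rw [Fintype.card_compl_set]
      simp [hcard]
    obtain ⟨f, p, f1, f2, f3, f4⟩ := ih ({l}ᶜ : Set α) (T.induce ({l}ᶜ : Set α)) hT' hcard'
    obtain ⟨v, hv, hvu⟩ := SimpleGraph.degree_eq_one_iff_existsUnique_adj.1 hl
    have hvl : v ≠ l := hv.ne'
    have hvmem : v ∈ ({l}ᶜ : Set α) := hvl
    let f' : α → ℕ := fun a => if h : a ∈ ({l}ᶜ : Set α) then f ⟨a, h⟩ else N + 1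
    have hf'l : f' l = N + 1 := by
      have : l ∉ ({l}ᶜ : Set α) := by simp
      simp only [f', this, dif_neg, not_false_eq_true]
    have hf' : ∀ a (h : a ∈ ({l}ᶜ : Set α)), f' a = f ⟨a, h⟩ := by
      intro a h
      simp only [f', h, dif_pos]
    have hcase : ∀ a, a = l ∨ a ∈ ({l}ᶜ : Set α) := by
      intro a
      by_cases h : a = l
      · exact Or.inl h
      · exact Or.inr h
    refine ⟨f', fun j => if j = N + 1 then f ⟨v, hvmem⟩ else p j, ?_, ?_, ?_, ?_⟩
    · intro a b hab
      rcases hcase a with rfl | ha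
      · rcases hcase b with rfl | hb
        · rfl
        · rw [hf'l, hf' b hb] at hab
          have := f2 ⟨b, hb⟩
          omega
      · rcases hcase b with rfl | hb
        · rw [hf'l, hf' a ha] at hab
          have := f2 ⟨a, ha⟩
          omega
        · rw [hf' a ha, hf' b hb] at hab
          exact congrArg Subtype.val (f1 hab)
    · intro a
      rcases hcase a with rfl | ha
      · rw [hf'l]
      · rw [hf' a ha]
        have := f2 ⟨a, ha⟩
        omega
    · intro j hj
      by_cases hjN : j = N + 1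
      · simp only [hjN, if_true]
        have := f2 ⟨v, hvmem⟩
        omega
      · simp only [hjN, if_false]
        exact f3 j hj
    · intro a b hab
      rcases hcase b with rfl | hb
      · rw [hf'l] at hab ⊢
        simp only [if_true]
        rcases hcase a with rfl | ha
        · rw [hf'l] at hab
          exact absurd hab (lt_irrefl _)
        · rw [hf' a ha]
          constructor
          · intro h
            have : a = v := hvu a h.symm
            subst this
            rfl
          · intro h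
            have := congrArg Subtype.val (f1 h)
            simp only at this
            rw [← this]
            exact hv.symm
      · rw [hf' b hb] at hab ⊢
        have hbN := f2 ⟨b, hb⟩
        rcases hcase a with rfl | ha
        · rw [hf'l] at hab
          omega
        · rw [hf' a ha] at hab ⊢
          have hbne : f ⟨b, hb⟩ ≠ N + 1 := by omega
          simp only [hbne, if_false]
          rw [← f4 ⟨a, ha⟩ ⟨b, hb⟩ hab]
          simp [SimpleGraph.comap_adj]

theorem main_core {V : Type u} {Ω : Type v} {C : Type w} {Θ : Type u'} {L : Type v'}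
    [LinearOrder L] [Finite V] [DecidableEq Ω] [Fintype Ω] [Fintype Θ]
    {G : SimpleGraph V} {lab : V → Ω → C} {ι : Ω} {ty : V → V → Finset (Ω × Ω) × Θ}
    {a b : Finset (Ω × Ω) × Θ → V → L}
    (hS : Sys G lab ι ty a b) {k M : ℕ} (hk : G.CliqueFree (k + 1))
    (T : SimpleGraph (Fin (M + 1)))
    (hT : T.IsTree) (hTG : ¬ Nonempty (T ↪g G)) (N B R : ℕ)
    (hN : N = 2 * (M + 1) * (Fintype.card Ω + Fintype.card (Finset (Ω × Ω))) +
      (k + 1) * Fintype.card Ω + 1)
    (hB : B = 3 + (2 * M + 2 + (2 * k + 1)) * (Fintype.card Ω * N + 3))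
    (hR : R = Fintype.card (Finset Ω × Ω) + Fintype.card (Finset (Ω × Ω) × Θ)) :
    Col G Set.univ (2 ^ Fintype.card (Finset (Ω × Ω) × Θ) * B ^ (R + 1)) := by
  classical
  have h2card : 2 ^ Fintype.card (Finset (Ω × Ω) × Θ) =
      Fintype.card (Finset (Ω × Ω) × Θ → Bool) := by
    rw [Fintype.card_fun, Fintype.card_bool]
  rw [h2card]
  refine Col.glueT (fun x τ => decide (a τ x < b τ x)) ?_
  intro δ
  by_contra hne
  obtain ⟨W, hWs, q, hq, hc, hst⟩ := exists_stable G lab ty B R hR (by omega) R _
    (by omega) hne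
  have hloop : ∀ τ, (∀ x ∈ W, a τ x < b τ x) ∨ (∀ x ∈ W, b τ x ≤ a τ x) := by
    intro τ
    cases hδ : δ τ
    · right
      intro x hx
      have h1 := congrFun (hWs hx).2 τ
      simp only [hδ, decide_eq_false_iff_not, not_lt] at h1
      exact h1
    · left
      intro x hx
      have h1 := congrFun (hWs hx).2 τ
      simp only [hδ, decide_eq_true_eq] at h1
      exact h1
  have hcq : ¬ Col G W q := by
    intro h
    apply hc
    refine Col.mono' h Subset.rfl ?_
    exact Nat.le_mul_of_pos_left q (by omega)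
  obtain ⟨I, hC, x0, hx0, y0, hy0, hadj0, hsnd⟩ := exists_core hS hq hloop hcq hst
  have hN1 : 2 * (M + 1) * (Fintype.card Ω + Fintype.card (Finset (Ω × Ω))) ≤ N := by omega
  have hb1 : ¬ Col G W ((3 + (2 * k + 1) * (Fintype.card Ω * N + 3)) * q) := by
    intro h
    apply hc
    refine Col.mono' h Subset.rfl (Nat.mul_le_mul_right _ ?_)
    rw [hB]
    exact Nat.add_le_add_left (Nat.mul_le_mul_right _ (by omega)) _
  have hfree : ∀ x ∈ W, ∀ y ∈ W, G.Adj x y → (∀ p ∈ (ty x y).1, p.2 ∈ I) →
      ∃ p ∈ (ty x y).1, p.1 ∉ I := by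
    intro x hx y hy hadj hs
    exact exists_free hC hk (by omega) (by omega) hb1 hx hy hadj hs
  obtain ⟨p0, hp0, hp0I⟩ := hfree x0 hx0 y0 hy0 hadj0 hsnd
  have hι := iota_free hC hp0I hcq
  set τ := ty x0 y0 with hτ
  have hb2 : ¬ Col G (Lv G lab ty (fun _ _ => True) τ I (b τ) N W (2 * M + 2)) (3 * q) := by
    refine col_Lv hC (fun _ _ => True) τ (b τ) (by omega) 1 ?_ (2 * M + 2) 3 ?_
    · intro W' hW' hno
      rw [one_mul]
      refine hC.act x0 hx0 y0 hy0 hadj0 W' hW' ?_
      intro u hu v hv huv hty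
      exact hno u hu v hv huv hty trivial
    · intro h
      apply hc
      refine Col.mono' h Subset.rfl (Nat.mul_le_mul_right _ ?_)
      rw [hB]
      refine Nat.add_le_add_left (Nat.mul_le_mul (by omega) (by omega)) _
  have hnonempty : (Lv G lab ty (fun _ _ => True) τ I (b τ) N W (2 * M + 2)).Nonempty := by
    by_contra h
    rw [Set.not_nonempty_iff_eq_empty] at h
    exact hb2 (Col.empty' h _)
  obtain ⟨f, p, f1, f2, f3, f4⟩ := tree_enum M (Fin (M + 1)) T hT (by simp)
  obtain ⟨x, w, h1, h2⟩ := exists_seq p0.2 p f3 M hN1 hnonempty M le_rfl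
  have hadj := adj_iff hC hfree hι hsnd hp0 hp0I p f3 M x w h1 h2
  apply hTG
  refine ⟨⟨⟨fun a => x (f a), ?_⟩, ?_⟩⟩
  · intro a b hab
    by_contra hab'
    rcases lt_trichotomy (f a) (f b) with h | h | h
    · exact (hadj _ _ h (f2 b)).1 hab
    · exact hab' (f1 h)
    · exact (hadj _ _ h (f2 a)).1 hab.symm
  · intro a b
    show G.Adj (x (f a)) (x (f b)) ↔ T.Adj a b
    rcases lt_trichotomy (f a) (f b) with h | h | h
    · rw [(hadj _ _ h (f2 b)).2, f4 a b h]
    · have : a = b := f1 h
      subst this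
      simp
    · rw [SimpleGraph.adj_comm, (hadj _ _ h (f2 a)).2, SimpleGraph.adj_comm, f4 b a h]

end Pool.Agent.N471.EL
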