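import Pool.Agent.N471.EL.Levels

set_option autoImplicit false

namespace Pool.Agent.N471.EL

open Set Pool.Agent.H367R3

universe u v w u' v'

theorem degree_color_bij {β : Type*} (s : Finset β) (R : β → β → Prop) (hirr : ∀ a, ¬ R a a)
    (h1 : ∀ a b c, R a b → R a c → b = c) (h2 : ∀ a b c, R a c → R b c → a = b) :
    ∃ κ : β → ℕ, (∀ a ∈ s, κ a < 3) ∧ ∀ a ∈ s, ∀ b ∈ s, R a b → κ a ≠ κ b := by
  classical
  obtain ⟨κ, k1, k2⟩ := degree_color s (fun a b => R a b ∨ R b a) (fun a b h => h.symm)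
    (fun a h => h.elim (hirr a) (hirr a)) 2 (by
      intro a _
      by_cases hb : ∃ b, R a b <;> by_cases hc : ∃ c, R c a
      · obtain ⟨b, hb⟩ := hb
        obtain ⟨c, hc⟩ := hc
        refine ⟨{b, c}, Finset.card_le_two, ?_⟩
        intro d _ hd
        rcases hd with hd | hd
        · simp [h1 a d b hd hb]
        · simp [h2 d c a hd hc]
      · obtain ⟨b, hb⟩ := hb
        refine ⟨{b}, by simp, ?_⟩
        intro d _ hd
        rcases hd with hd | hd
        · simp [h1 a d b hd hb]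
        · exact absurd ⟨d, hd⟩ hc
      · obtain ⟨c, hc⟩ := hc
        refine ⟨{c}, by simp, ?_⟩
        intro d _ hd
        rcases hd with hd | hd
        · exact absurd ⟨d, hd⟩ hb
        · simp [h2 d c a hd hc]
      · refine ⟨∅, by simp, ?_⟩
        intro d _ hd
        rcases hd with hd | hd
        · exact absurd ⟨d, hd⟩ hb
        · exact absurd ⟨d, hd⟩ hc)
  exact ⟨κ, k1, fun a ha b hb h => k2 a ha b hb (Or.inl h)⟩

variable {V : Type u} {Ω : Type v} {C : Type w} {Θ : Type u'} {L : Type v'} [LinearOrder L]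
  [DecidableEq Ω] [Fintype Ω]
  {G : SimpleGraph V} {lab : V → Ω → C} {ι : Ω}
  {ty : V → V → Finset (Ω × Ω) × Θ} {a b : Finset (Ω × Ω) × Θ → V → L} {W : Set V} {q : ℕ}
  {I : Finset Ω} {N : ℕ}

/-- The edges of a type which have the coincidences in `I` only, and whose ends have different
labels in `I`, can be separated by three classes. -/
theorem col_three [Finite V] (hC : Core G lab ι ty a b W q I) {x0 y0 : V} (hx0 : x0 ∈ W)
    (hy0 : y0 ∈ W) (hadj0 : G.Adj x0 y0) (hs : ∀ p ∈ (ty x0 y0).1, p.2 ∈ I)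
    (hf : ∀ p ∈ (ty x0 y0).1, p.1 ∈ I) {W' : Set V} (hW' : W' ⊆ W)
    (hno : ∀ u ∈ W', ∀ v ∈ W', G.Adj u v → ty u v = ty x0 y0 → ¬ ag lab I u v) :
    Col G W' (3 * q) := by
  classical
  let R : (Ω → Option C) → (Ω → Option C) → Prop := fun κ κ' =>
    ∃ x ∈ W', ∃ y ∈ W', (G.Adj x y ∧ ty x y = ty x0 y0) ∧ key lab I x = κ ∧ key lab I y = κ'
  have hpt : ∀ x y, ty x y = ty x0 y0 → ∀ p ∈ (ty x0 y0).1, lab x p.1 = lab y p.2 := by
    intro x y h p hp
    rw [← hC.pat, h]
    exact hp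
  have hirr : ∀ κ, ¬ R κ κ := by
    rintro κ ⟨x, hx, y, hy, ⟨h1, h2⟩, h3, h4⟩
    exact hno x hx y hy h1 h2 (key_eq.1 (h3.trans h4.symm))
  have hf1 : ∀ κ κ' κ'', R κ κ' → R κ κ'' → κ' = κ'' := by
    rintro κ κ' κ'' ⟨x, hx, y, hy, ⟨h1, h2⟩, h3, h4⟩ ⟨x', hx', y', hy', ⟨h1', h2'⟩, h3', h4'⟩
    rw [← h4, ← h4', key_eq]
    have hxx : ag lab I x x' := key_eq.1 (h3.trans h3'.symm)
    intro c hc
    refine hC.mini x0 hx0 y0 hy0 hadj0 hs y (hW' hy) y' (hW' hy') ?_ c hc
    intro p hp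
    rw [← hpt x y h2 p hp, ← hpt x' y' h2' p hp]
    exact hxx p.1 (hf p hp)
  have hf2 : ∀ κ κ' κ'', R κ κ'' → R κ' κ'' → κ = κ' := by
    rintro κ κ' κ'' ⟨x, hx, y, hy, ⟨h1, h2⟩, h3, h4⟩ ⟨x', hx', y', hy', ⟨h1', h2'⟩, h3', h4'⟩
    rw [← h3, ← h3', key_eq]
    have hyy : ag lab I y y' := key_eq.1 (h4.trans h4'.symm)
    have hsw : ∀ p : Ω × Ω, p ∈ (ty y x).1 ↔ (p.2, p.1) ∈ (ty x0 y0).1 := by
      intro p
      rw [← h2, hC.pat, hC.pat]
      exact eq_comm
    intro c hc
    refine hC.mini y (hW' hy) x (hW' hx) h1.symm ?_ x (hW' hx) x' (hW' hx') ?_ c hc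
    · intro p hp
      exact hf _ ((hsw p).1 hp)
    · intro p hp
      have h5 := (hsw p).1 hp
      have h6 := hpt x y h2 _ h5
      have h7 := hpt x' y' h2' _ h5
      simp only at h6 h7
      rw [h6, h7]
      exact hyy p.1 (hs _ h5)
  have hfin : (key lab I '' W').Finite := (Set.toFinite W').image _
  obtain ⟨κ, k1, k2⟩ := degree_color_bij hfin.toFinset R hirr hf1 hf2
  refine Col.glue (fun x => κ (key lab I x)) ?_ ?_
  · intro x hx
    apply k1
    rw [Set.Finite.mem_toFinset]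
    exact ⟨x, hx, rfl⟩
  · intro j _
    apply hC.act x0 hx0 y0 hy0 hadj0
    · rintro x ⟨hx, _⟩
      exact hW' hx
    · rintro x ⟨hx, hxj⟩ y ⟨hy, hyj⟩ hadj hty
      refine k2 (key lab I x) ?_ (key lab I y) ?_ ⟨x, hx, y, hy, ⟨hadj, hty⟩, rfl, rfl⟩
        (hxj.trans hyj.symm)
      · rw [Set.Finite.mem_toFinset]
        exact ⟨x, hx, rfl⟩
      · rw [Set.Finite.mem_toFinset]
        exact ⟨y, hy, rfl⟩

/-- A chain of generic members of a cell is a clique. -/
theorem exists_chain (hC : Core G lab ι ty a b W q I) (hι : ι ∉ I) {k : ℕ}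
    (hN : (k + 1) * Fintype.card Ω ≤ N) {τ : Finset (Ω × Ω) × Θ}
    (hs : ∀ p ∈ τ.1, p.2 ∈ I) (hf : ∀ p ∈ τ.1, p.1 ∈ I)
    (hne : (Lv G lab ty (ag lab I) τ I (b τ) N W (2 * k + 1)).Nonempty) :
    ∃ l : Finset V, G.IsNClique (k + 1) l := by
  classical
  obtain ⟨x0, hx0⟩ := hne
  obtain ⟨w0, hw0, hadj0, hty0, hag0⟩ := hx0.2.2
  -- the common pattern
  have hD : ∀ p : Ω × Ω, p ∈ τ.1 ↔ p.1 ∈ I ∧ p.2 ∈ I ∧ lab x0 p.1 = lab x0 p.2 := by
    intro p
    constructor
    · intro hp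
      refine ⟨hf p hp, hs p hp, ?_⟩
      rw [hag0 p.2 (hs p hp), ← hC.pat, hty0]
      exact hp
    · rintro ⟨_, h2, h3⟩
      rw [← hty0, hC.pat, h3, hag0 p.2 h2]
  have hx0free : ∀ c, c ∉ I → ∀ d ∈ I, lab x0 c ≠ lab x0 d := by
    intro c hc d hd h
    apply hc
    have : (c, d) ∈ τ.1 := by
      rw [← hty0, hC.pat]
      show lab x0 c = lab w0 d
      rw [h, hag0 d hd]
    exact hf _ this
  have hsymp : ∀ p : Ω × Ω, p ∈ τ.1 ↔ (p.2, p.1) ∈ τ.1 := by
    intro p
    rw [hD, hD]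
    constructor
    · rintro ⟨h1, h2, h3⟩
      exact ⟨h2, h1, h3.symm⟩
    · rintro ⟨h1, h2, h3⟩
      exact ⟨h2, h1, h3.symm⟩
  have key : ∀ n, n ≤ k → ∃ l : Finset V, ∃ x ∈ l, l.card = n + 1 ∧
      x ∈ Lv G lab ty (ag lab I) τ I (b τ) N W (2 * (k - n) + 1) ∧
      (∀ z ∈ l, z ∈ W ∧ ag lab I z x0 ∧ ∀ c, c ∉ I → ∀ d ∈ I, lab z c ≠ lab x0 d) ∧
      (l : Set V).Pairwise G.Adj ∧
      ((∀ z ∈ W, b τ z ≤ a τ z) → ∀ z ∈ l, z ≠ x → a τ z < b τ x) := by
    intro n
    induction n with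
    | zero =>
      intro _
      refine ⟨{x0}, x0, by simp, by simp, hx0, ?_, by simp, ?_⟩
      · intro z hz
        rw [Finset.mem_singleton] at hz
        subst hz
        exact ⟨Lv_anti G lab ty _ τ I (b τ) N W (Nat.zero_le _) hx0, fun _ _ => rfl, hx0free⟩
      · intro _ z hz hzx
        rw [Finset.mem_singleton] at hz
        exact absurd hz hzx
    | succ n ih =>
      intro hn
      obtain ⟨l, x, hxl, hl1, hxL, hl2, hl3, hl4⟩ := ih (by omega)
      obtain ⟨w, hw, hadjw, htyw, hagw⟩ := hxL.2.2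
      have hw' : w ∈ Lv G lab ty (ag lab I) τ I (b τ) N W (2 * (k - (n + 1)) + 1 + 1) := by
        have : 2 * (k - (n + 1)) + 1 + 1 = 2 * (k - n) := by omega
        rw [this]
        exact hw
      let U : Finset C := l.biUnion fun z => Finset.univ.image (lab z)
      have hUc : U.card ≤ N := by
        have h1 : U.card ≤ l.card * Fintype.card Ω := by
          refine Finset.card_biUnion_le_card_mul _ _ _ ?_
          intro z _
          exact Finset.card_image_le.trans (by rw [Finset.card_univ])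
        calc U.card ≤ l.card * Fintype.card Ω := h1
          _ ≤ (k + 1) * Fintype.card Ω := Nat.mul_le_mul_right _ (by omega)
          _ ≤ N := hN
      obtain ⟨z, hz1, hz2, hz3, hz4⟩ := hw'.2.1 U hUc
      have hzW : z ∈ W := Lv_anti G lab ty _ τ I (b τ) N W (Nat.zero_le _) hz1
      have hUm : ∀ v ∈ l, ∀ d, lab v d ∈ U := by
        intro v hv d
        exact Finset.mem_biUnion.2 ⟨v, hv, Finset.mem_image_of_mem _ (Finset.mem_univ _)⟩
      have hxx0 := (hl2 x hxl).2.1
      have hzx0 : ag lab I z x0 := by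
        intro c hc
        rw [hz2 c hc, ← hagw c hc, hxx0 c hc]
      have hz5 : ∀ c, c ∉ I → ∀ d ∈ I, lab z c ≠ lab x0 d := by
        intro c hc d hd h
        apply hz4 c hc
        rw [h, ← hxx0 d hd]
        exact hUm x hxl d
      have hzl : z ∉ l := fun h => hz4 ι hι (hUm z h ι)
      have hpat1 : ∀ v ∈ l, (ty v z).1 = τ.1 := by
        intro v hv
        obtain ⟨_, hv1, hv2⟩ := hl2 v hv
        ext p
        rw [hD, hC.pat]
        by_cases hp2 : p.2 ∈ I
        · by_cases hp1 : p.1 ∈ I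
          · rw [hv1 p.1 hp1, hzx0 p.2 hp2]
            exact ⟨fun h => ⟨hp1, hp2, h⟩, fun h => h.2.2⟩
          · rw [hzx0 p.2 hp2]
            exact ⟨fun h => absurd h (hv2 p.1 hp1 p.2 hp2), fun h => absurd h.1 hp1⟩
        · constructor
          · intro h
            exact absurd (h ▸ hUm v hv p.1) (hz4 p.2 hp2)
          · intro h
            exact absurd h.2.1 hp2
      have hpat2 : ∀ v ∈ l, (ty z v).1 = τ.1 := by
        intro v hv
        ext p
        rw [hsymp p, ← hpat1 v hv, hC.pat, hC.pat]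
        exact eq_comm
      have hxz : a τ x < b τ z := by
        have h1 := hC.lt x w hadjw
        rw [htyw] at h1
        exact h1.trans_le hz3
      have hadjz : ∀ v ∈ l, G.Adj v z := by
        intro v hv
        have hvz : v ≠ z := fun h => hzl (h ▸ hv)
        rcases hC.loop τ with hlo | hlo
        · rcases le_total (b τ v) (b τ z) with hle | hle
          · exact hC.adj τ v z hvz (hpat1 v hv) ((hlo v (hl2 v hv).1).trans_le hle)
          · exact (hC.adj τ z v hvz.symm (hpat2 v hv) ((hlo z hzW).trans_le hle)).symm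
        · by_cases hvx : v = x
          · subst hvx
            exact hC.adj τ v z hvz (hpat1 v hv) hxz
          · have h1 := hl4 hlo v hv hvx
            have h2 := hlo x (hl2 x hxl).1
            exact hC.adj τ v z hvz (hpat1 v hv) ((h1.trans_le h2).trans hxz)
      refine ⟨insert z l, z, Finset.mem_insert_self _ _, ?_, hz1, ?_, ?_, ?_⟩
      · rw [Finset.card_insert_of_notMem hzl, hl1]
      · intro v hv
        rcases Finset.mem_insert.1 hv with rfl | h
        · exact ⟨hzW, hzx0, hz5⟩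
        · exact hl2 v h
      · rw [Finset.coe_insert]
        refine hl3.insert ?_
        intro v hv _
        exact ⟨(hadjz v hv).symm, hadjz v hv⟩
      · intro hlo v hv hvz
        rcases Finset.mem_insert.1 hv with rfl | h
        · exact absurd rfl hvz
        · by_cases hvx : v = x
          · subst hvx
            exact hxz
          · exact ((hl4 hlo v h hvx).trans_le (hlo x (hl2 x hxl).1)).trans hxz
  obtain ⟨l, x, _, hl1, _, _, hl3, _⟩ := key k le_rfl
  exact ⟨l, hl3, hl1⟩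

/-- Every type with the coincidences of the lower end in `I` has a coincidence of the upper end
outside `I`. -/
theorem exists_free [Finite V] (hC : Core G lab ι ty a b W q I) {k : ℕ}
    (hk : G.CliqueFree (k + 1)) (hN : (k + 1) * Fintype.card Ω ≤ N) (hN0 : 0 < N)
    (hb : ¬ Col G W ((3 + (2 * k + 1) * (Fintype.card Ω * N + 3)) * q)) {x0 y0 : V}
    (hx0 : x0 ∈ W) (hy0 : y0 ∈ W) (hadj0 : G.Adj x0 y0) (hs : ∀ p ∈ (ty x0 y0).1, p.2 ∈ I) :
    ∃ p ∈ (ty x0 y0).1, p.1 ∉ I := by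
  classical
  by_contra hne
  push Not at hne
  by_cases hι : ι ∈ I
  · apply hb
    have h1 : Col G W (3 * q) := by
      refine col_three hC hx0 hy0 hadj0 hs hne Subset.rfl ?_
      intro u _ v _ huv _ hag
      exact huv.ne (hC.inj u v (hag ι hι))
    exact Col.mono' h1 Subset.rfl (Nat.mul_le_mul_right _ (by omega))
  · have h1 := col_Lv hC (ag lab I) (ty x0 y0) (b (ty x0 y0)) hN0 3 (by
      intro W' hW' hno
      exact col_three hC hx0 hy0 hadj0 hs hne hW' hno) (2 * k + 1) 3 hb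
    have h2 : (Lv G lab ty (ag lab I) (ty x0 y0) I (b (ty x0 y0)) N W (2 * k + 1)).Nonempty := by
      by_contra h
      rw [Set.not_nonempty_iff_eq_empty] at h
      exact h1 (Col.empty' h _)
    obtain ⟨l, hl⟩ := exists_chain hC hι hN hs hne h2
    exact hk l hl

/-- The label `ι` is free. -/
theorem iota_free (hC : Core G lab ι ty a b W q I) {c0 : Ω} (hc0 : c0 ∉ I)
    (hW : ¬ Col G W q) : ι ∉ I := by
  intro hι
  apply hW
  refine hC.fre W Subset.rfl c0 hc0 ?_
  intro u _ v _ huv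
  rw [hC.inj u v (huv ι hι)]

end Pool.Agent.N471.EL
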